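import Pool.Agent.H75.QA.Targets

/-!
# QA, module HGX: hypergraphs with both kinds of expansion

The counting for `Expd` is that of helper81 and helper68 (module HG).
-/

set_option autoImplicit false

namespace Pool.Agent.H34.QA

open Finset Pool.Agent.H68.AC Pool.Agent.H75.QA

/-- maps for which the scopes of the constraints in `H` are contained in `S` -/
def Bad {k : ℕ} (r : ℕ) (S H : Finset (Fin k)) : Finset (Fin k → Fin r → Fin k) :=
  Fintype.piFinset (fun j => Fintype.piFinset (fun _ => if j ∈ H then S else univ))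

lemma card_Bad {k r : ℕ} (S H : Finset (Fin k)) {x : ℝ} (_hx0 : 0 ≤ x) (hx : (S.card : ℝ) ≤ x * k) :
    ((Bad r S H).card : ℝ) ≤ (k : ℝ) ^ (r * k) * x ^ (r * H.card) := by
  have h1 : ((Bad r S H).card : ℝ)
      = ∏ j : Fin k, (if j ∈ H then (S.card : ℝ) ^ r else (k : ℝ) ^ r) := by
    simp only [Bad, Fintype.card_piFinset]
    push_cast
    apply prod_congr rfl
    intro j _
    by_cases hj : j ∈ H <;> simp [hj]
  have h2 : ∀ j ∈ (univ : Finset (Fin k)), (if j ∈ H then (S.card : ℝ) ^ r else (k : ℝ) ^ r) ≤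
      (k : ℝ) ^ r * (if j ∈ H then x ^ r else 1) := by
    intro j _
    split_ifs
    · rw [← mul_pow]
      exact pow_le_pow_left₀ (by positivity) (by linarith) r
    · simp
  rw [h1]
  refine (prod_le_prod (fun j _ => by split_ifs <;> positivity) h2).trans (le_of_eq ?_)
  rw [prod_mul_distrib, prod_const, card_univ, Fintype.card_fin, prod_ite, prod_const, prod_const_one,
    mul_one, filter_mem_eq_inter, univ_inter, ← pow_mul, ← pow_mul]

lemma card_biUnion_real {ι α : Type} [DecidableEq α] (I : Finset ι) (F : ι → Finset α) (c : ℝ)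
    (h : ∀ i ∈ I, ((F i).card : ℝ) ≤ c) : ((I.biUnion F).card : ℝ) ≤ I.card * c := by
  calc ((I.biUnion F).card : ℝ) ≤ ((∑ i ∈ I, (F i).card : ℕ) : ℝ) := by
        exact_mod_cast card_biUnion_le
    _ = ∑ i ∈ I, ((F i).card : ℝ) := by push_cast; rfl
    _ ≤ ∑ _i ∈ I, c := sum_le_sum h
    _ = _ := by rw [sum_const, nsmul_eq_mul]

open Classical in
/-- maps without the first kind of expansion -/
lemma bad_one (β δ : ℝ) (hβ0 : 0 < β) (hβ1 : β < 1) (k r : ℕ) :
    ((univ.filter fun e : Fin k → Fin r → Fin k => ¬ Expd e ⌊β * k⌋₊ ⌊δ * k⌋₊).card : ℝ)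
      ≤ (k : ℝ) ^ (r * k) * (4 * (β ^ δ) ^ r) ^ k := by
  set bt := ⌊β * k⌋₊ with hbt
  set h := ⌊δ * k⌋₊ with hh
  set I : Finset (Finset (Fin k) × Finset (Fin k)) :=
    univ.filter (fun q => q.1.card ≤ bt ∧ q.2.card = h + 1) with hI0
  have hcov : (univ.filter fun e : Fin k → Fin r → Fin k => ¬ Expd e bt h)
      ⊆ I.biUnion (fun q => Bad r q.1 q.2) := by
    intro e he
    have he := (mem_filter.1 he).2
    unfold Expd at he
    push Not at he
    obtain ⟨S, hS, hc⟩ := he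
    obtain ⟨J, hJ, hJc⟩ := Finset.exists_subset_card_eq (show h + 1 ≤ _ from hc)
    refine mem_biUnion.2 ⟨(S, J), ?_, ?_⟩
    · simp only [I, mem_filter, mem_univ, true_and]
      exact ⟨hS, hJc⟩
    · simp only [Bad, Fintype.mem_piFinset]
      intro j i
      by_cases hj : j ∈ J
      · have := hJ hj
        simp only [mem_filter, mem_univ, true_and] at this
        simp only [hj, if_true]
        exact this (some i)
      · simp [hj]
  have hcard : ∀ q ∈ I, ((Bad r q.1 q.2).card : ℝ) ≤ (k : ℝ) ^ (r * k) * β ^ (r * (h + 1)) := by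
    intro q hq
    simp only [I, mem_filter, mem_univ, true_and] at hq
    rw [← hq.2]
    apply card_Bad _ _ hβ0.le
    exact le_trans (by exact_mod_cast hq.1) (Nat.floor_le (by positivity))
  have hI : (I.card : ℝ) ≤ 4 ^ k := by
    have : I.card ≤ (univ : Finset (Finset (Fin k) × Finset (Fin k))).card :=
      card_le_card (filter_subset _ _)
    rw [card_univ, Fintype.card_prod, Fintype.card_finset, Fintype.card_fin] at this
    calc (I.card : ℝ) ≤ ((2 ^ k * 2 ^ k : ℕ) : ℝ) := by exact_mod_cast this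
      _ = 4 ^ k := by push_cast; rw [← mul_pow]; norm_num
  have hpow : β ^ (r * (h + 1)) ≤ ((β ^ δ) ^ r) ^ k := by
    have h1 : β ^ (r * (h + 1)) = β ^ ((r * (h + 1) : ℕ) : ℝ) := (Real.rpow_natCast _ _).symm
    have h2 : ((β ^ δ) ^ r) ^ k = β ^ (δ * ((r * k : ℕ) : ℝ)) := by
      rw [← pow_mul, ← Real.rpow_natCast, ← Real.rpow_mul hβ0.le]
    rw [h1, h2]
    apply Real.rpow_le_rpow_of_exponent_ge hβ0 hβ1.le
    have h3 : δ * k < h + 1 := Nat.lt_floor_add_one _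
    push_cast
    nlinarith [h3.le, (Nat.cast_nonneg r : (0 : ℝ) ≤ r)]
  have hβδ : 0 < β ^ δ := Real.rpow_pos_of_pos hβ0 δ
  calc ((univ.filter fun e : Fin k → Fin r → Fin k => ¬ Expd e bt h).card : ℝ)
      ≤ ((I.biUnion (fun q => Bad r q.1 q.2)).card : ℝ) := by exact_mod_cast card_le_card hcov
    _ ≤ I.card * ((k : ℝ) ^ (r * k) * β ^ (r * (h + 1))) := card_biUnion_real _ _ _ hcard
    _ ≤ 4 ^ k * ((k : ℝ) ^ (r * k) * ((β ^ δ) ^ r) ^ k) := by gcongr
    _ = _ := by rw [mul_pow]; ring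

lemma choose_bound (k i : ℕ) (hk : 1 ≤ k) : ((k.choose i : ℕ) : ℝ) * ((i : ℝ) / k) ^ i ≤ Real.exp i := by
  have h1 : ((k.choose i : ℕ) : ℝ) ≤ (k : ℝ) ^ i / (i.factorial : ℝ) := Nat.choose_le_pow_div i k
  have h2 := Real.pow_div_factorial_le_exp (i : ℝ) (Nat.cast_nonneg i) i
  have hk0 : (0 : ℝ) < k := by exact_mod_cast hk
  calc ((k.choose i : ℕ) : ℝ) * ((i : ℝ) / k) ^ i
      ≤ (k : ℝ) ^ i / (i.factorial : ℝ) * ((i : ℝ) / k) ^ i := by gcongr
    _ = (i : ℝ) ^ i / (i.factorial : ℝ) := by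
        rw [div_pow]
        field_simp
    _ ≤ _ := h2

open Classical in
/-- maps without the second kind of expansion -/
lemma bad_two (δ : ℝ) (γ : ℕ) (hγ : 1 ≤ γ) (hδ0 : 0 < δ) (hδ : γ * δ ≤ 1 / 16) (k r : ℕ)
    (hk : 1 ≤ k) :
    ((univ.filter fun e : Fin k → Fin (r + 1 + γ) → Fin k => ¬ Expg e γ ⌊δ * k⌋₊).card : ℝ)
      ≤ (k : ℝ) ^ ((r + 1 + γ) * k) * ∑ i ∈ Icc 1 ⌊δ * k⌋₊,
        (γ * Real.exp (1 + γ) * (1 / 16) ^ r) ^ i := by
  set h := ⌊δ * k⌋₊ with hh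
  have hk0 : (0 : ℝ) < k := by exact_mod_cast hk
  have hhk : (h : ℝ) ≤ δ * k := Nat.floor_le (by positivity)
  have hγ0 : (0 : ℝ) < γ := by exact_mod_cast hγ
  have hsmall : ∀ i ∈ Icc 1 h, (γ * i : ℝ) / k ≤ 1 / 16 ∧ γ * i ≤ k := by
    intro i hi
    have h1 : (i : ℝ) ≤ h := by exact_mod_cast (mem_Icc.1 hi).2
    have h2 : (γ * i : ℝ) ≤ 1 / 16 * k := by
      calc (γ * i : ℝ) ≤ γ * (δ * k) := by
            have := h1.trans hhk
            gcongr
        _ = (γ * δ) * k := by ring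
        _ ≤ _ := by gcongr
    refine ⟨(div_le_iff₀ hk0).2 h2, ?_⟩
    have h3 : ((γ * i : ℕ) : ℝ) ≤ k := by
      push_cast
      linarith
    exact_mod_cast h3
  have hcov : (univ.filter fun e : Fin k → Fin (r + 1 + γ) → Fin k => ¬ Expg e γ h)
      ⊆ (Icc 1 h).biUnion (fun i => (powersetCard i univ ×ˢ powersetCard (γ * i) univ).biUnion
        (fun q => Bad (r + 1 + γ) q.2 q.1)) := by
    intro e he
    have he := (mem_filter.1 he).2
    unfold Expg at he
    push Not at he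
    obtain ⟨H, hH, hc⟩ := he
    have hH1 : 1 ≤ H.card := by
      by_contra h0
      have : H.card = 0 := by omega
      rw [this] at hc
      simp at hc
    have hi : H.card ∈ Icc 1 h := mem_Icc.2 ⟨hH1, hH⟩
    obtain ⟨S, hVS, hSc⟩ : ∃ S : Finset (Fin k), VS e H ⊆ S ∧ S.card = γ * H.card := by
      have h1 : γ * H.card ≤ (univ : Finset (Fin k)).card := by
        rw [card_univ, Fintype.card_fin]
        exact (hsmall _ hi).2
      obtain ⟨S, h2, _, h3⟩ := Finset.exists_subsuperset_card_eq (subset_univ (VS e H)) hc.le h1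
      exact ⟨S, h2, h3⟩
    refine mem_biUnion.2 ⟨H.card, hi, mem_biUnion.2 ⟨(H, S), ?_, ?_⟩⟩
    · rw [mem_product, mem_powersetCard, mem_powersetCard]
      exact ⟨⟨subset_univ _, rfl⟩, subset_univ _, hSc⟩
    · simp only [Bad, Fintype.mem_piFinset]
      intro j i
      by_cases hj : j ∈ H
      · rw [if_pos hj]
        apply hVS
        exact mem_biUnion.2 ⟨j, hj, mem_image.2 ⟨some i, mem_univ _, rfl⟩⟩
      · simp [hj]
  have hterm : ∀ i ∈ Icc 1 h, (((powersetCard i (univ : Finset (Fin k)) ×ˢ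
      powersetCard (γ * i) (univ : Finset (Fin k))).biUnion
        (fun q => Bad (r + 1 + γ) q.2 q.1)).card : ℝ) ≤ (k : ℝ) ^ ((r + 1 + γ) * k) *
        (γ * Real.exp (1 + γ) * (1 / 16) ^ r) ^ i := by
    intro i hi
    have hx0 : 0 ≤ (γ * i : ℝ) / k := by positivity
    have h1 := card_biUnion_real (powersetCard i (univ : Finset (Fin k)) ×ˢ
      powersetCard (γ * i) (univ : Finset (Fin k))) (fun q => Bad (r + 1 + γ) q.2 q.1)
      ((k : ℝ) ^ ((r + 1 + γ) * k) * ((γ * i : ℝ) / k) ^ ((r + 1 + γ) * i)) (by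
        intro q hq
        rw [mem_product, mem_powersetCard, mem_powersetCard] at hq
        have h2 := card_Bad (r := r + 1 + γ) q.2 q.1 hx0 (by
          rw [hq.2.2, div_mul_cancel₀ _ hk0.ne']
          push_cast
          exact le_refl _)
        rwa [hq.1.2] at h2)
    refine h1.trans ?_
    rw [card_product, card_powersetCard, card_powersetCard, card_univ, Fintype.card_fin]
    push_cast
    have c1 := choose_bound k i hk
    have c2 := choose_bound k (γ * i) hk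
    push_cast at c2
    have c3 := (hsmall i hi).1
    have e1 : ((γ * i : ℝ) / k) ^ ((r + 1 + γ) * i)
        = (((γ * i : ℝ) / k) ^ i) ^ r * ((γ : ℝ) ^ i * ((i : ℝ) / k) ^ i) * ((γ * i : ℝ) / k) ^ (γ * i) := by
      rw [← mul_pow, ← pow_mul, mul_div_assoc, ← pow_add, ← pow_add]
      congr 1
      ring
    have e2 : (((γ * i : ℝ) / k) ^ i) ^ r ≤ ((1 / 16 : ℝ) ^ r) ^ i := by
      rw [← pow_mul, ← pow_mul, mul_comm i r]
      exact pow_le_pow_left₀ hx0 c3 _
    calc ((k.choose i : ℝ) * (k.choose (γ * i) : ℝ)) *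
          ((k : ℝ) ^ ((r + 1 + γ) * k) * ((γ * i : ℝ) / k) ^ ((r + 1 + γ) * i))
        = (k : ℝ) ^ ((r + 1 + γ) * k) * ((((γ * i : ℝ) / k) ^ i) ^ r * (γ : ℝ) ^ i *
          ((k.choose i : ℝ) * ((i : ℝ) / k) ^ i) *
          ((k.choose (γ * i) : ℝ) * ((γ * i : ℝ) / k) ^ (γ * i))) := by rw [e1]; ring
      _ ≤ (k : ℝ) ^ ((r + 1 + γ) * k) * (((1 / 16 : ℝ) ^ r) ^ i * (γ : ℝ) ^ i *
          Real.exp i * Real.exp (γ * i)) := by gcongr
      _ = (k : ℝ) ^ ((r + 1 + γ) * k) * (γ * Real.exp (1 + γ) * (1 / 16) ^ r) ^ i := by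
          rw [mul_pow, mul_pow, ← Real.exp_nat_mul]
          have : Real.exp ((i : ℝ) * (1 + γ)) = Real.exp i * Real.exp (γ * i) := by
            rw [← Real.exp_add]
            congr 1
            ring
          rw [this]
          ring
  calc ((univ.filter fun e : Fin k → Fin (r + 1 + γ) → Fin k => ¬ Expg e γ h).card : ℝ)
      ≤ (((Icc 1 h).biUnion (fun i => (powersetCard i (univ : Finset (Fin k)) ×ˢ
        powersetCard (γ * i) (univ : Finset (Fin k))).biUnion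
        (fun q => Bad (r + 1 + γ) q.2 q.1))).card : ℝ) := by exact_mod_cast card_le_card hcov
    _ ≤ ∑ i ∈ Icc 1 h, (((powersetCard i (univ : Finset (Fin k)) ×ˢ
      powersetCard (γ * i) (univ : Finset (Fin k))).biUnion
        (fun q => Bad (r + 1 + γ) q.2 q.1)).card : ℝ) := by exact_mod_cast card_biUnion_le
    _ ≤ ∑ i ∈ Icc 1 h, (k : ℝ) ^ ((r + 1 + γ) * k) *
        (γ * Real.exp (1 + γ) * (1 / 16) ^ r) ^ i := sum_le_sum hterm
    _ = _ := by rw [mul_sum]

lemma geom_third (x : ℝ) (hx0 : 0 ≤ x) (hx : x ≤ 1 / 4) (h : ℕ) : ∑ i ∈ Icc 1 h, x ^ i ≤ 1 / 3 := by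
  have h1 : ∀ h : ℕ, ∑ i ∈ Icc 1 h, x ^ i ≤ 1 / 3 * (1 - (1 / 4) ^ h) := by
    intro h
    induction h with
    | zero => simp
    | succ h ih =>
      rw [sum_Icc_succ_top (by omega)]
      have : x ^ (h + 1) ≤ (1 / 4) ^ (h + 1) := pow_le_pow_left₀ hx0 hx _
      have e : (1 / 4 : ℝ) ^ (h + 1) = (1 / 4) ^ h * (1 / 4) := pow_succ _ _
      rw [e] at this ⊢
      linarith
  have h2 := h1 h
  have h3 : (0 : ℝ) ≤ (1 / 4) ^ h := by positivity
  linarith

theorem HGX : T_HGX := by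
  classical
  intro β δ γ hβ0 hβ1 hδ
  set δ' : ℝ := min δ (1 / (16 * (γ + 1))) with hδ'
  have hγ0 : (0 : ℝ) ≤ γ := Nat.cast_nonneg γ
  have hδ'0 : 0 < δ' := lt_min hδ (by positivity)
  have hγδ : (γ : ℝ) * δ' ≤ 1 / 16 := by
    calc (γ : ℝ) * δ' ≤ γ * (1 / (16 * (γ + 1))) := by
          have := min_le_right δ (1 / (16 * ((γ : ℝ) + 1)))
          gcongr
      _ ≤ 1 / 16 := by
          rw [mul_one_div, div_le_div_iff₀ (by positivity) (by norm_num)]
          linarith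
  have hx0 : 0 < β ^ δ' := Real.rpow_pos_of_pos hβ0 δ'
  have hx1 : β ^ δ' < 1 := Real.rpow_lt_one hβ0.le hβ1 hδ'0
  obtain ⟨r1, hr1⟩ := exists_pow_lt_of_lt_one (show (0:ℝ) < 1 / 16 by norm_num) hx1
  obtain ⟨r2, hr2⟩ := exists_pow_lt_of_lt_one
    (show (0:ℝ) < 1 / (4 * (γ * Real.exp (1 + γ) + 1)) by positivity)
    (show (1 / 16 : ℝ) < 1 by norm_num)
  set r := max r1 r2 with hr
  refine ⟨δ', r + 1 + γ, hδ'0, min_le_left _ _, fun k hk => ?_⟩
  have hk0 : (0 : ℝ) < k := by exact_mod_cast hk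
  by_contra hcon
  push Not at hcon
  have hcov : (univ : Finset (Fin k → Fin (r + 1 + γ) → Fin k)) ⊆
      (univ.filter fun e => ¬ Expd e ⌊β * k⌋₊ ⌊δ' * k⌋₊) ∪
      (univ.filter fun e => ¬ Expg e γ ⌊δ' * k⌋₊) := by
    intro e _
    rw [mem_union, mem_filter, mem_filter]
    by_cases h : Expd e ⌊β * k⌋₊ ⌊δ' * k⌋₊
    · right
      exact ⟨mem_univ _, hcon e h⟩
    · left
      exact ⟨mem_univ _, h⟩
  have htot : ((k : ℝ) ^ ((r + 1 + γ) * k)) ≤
      ((univ.filter fun e : Fin k → Fin (r + 1 + γ) → Fin k =>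
        ¬ Expd e ⌊β * k⌋₊ ⌊δ' * k⌋₊).card : ℝ) +
      ((univ.filter fun e : Fin k → Fin (r + 1 + γ) → Fin k =>
        ¬ Expg e γ ⌊δ' * k⌋₊).card : ℝ) := by
    have h1 := (card_le_card hcov).trans (card_union_le _ _)
    rw [card_univ, Fintype.card_fun, Fintype.card_fun, Fintype.card_fin, Fintype.card_fin,
      ← pow_mul] at h1
    exact_mod_cast h1
  have hP : (0 : ℝ) < (k : ℝ) ^ ((r + 1 + γ) * k) := by positivity
  have b1 := bad_one β δ' hβ0 hβ1 k (r + 1 + γ)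
  have b1' : (4 * (β ^ δ') ^ (r + 1 + γ)) ^ k ≤ 1 / 4 := by
    have h1 : (β ^ δ') ^ (r + 1 + γ) ≤ 1 / 16 :=
      (pow_le_pow_of_le_one hx0.le hx1.le (by have := le_max_left r1 r2; omega)).trans hr1.le
    have h2 : 4 * (β ^ δ') ^ (r + 1 + γ) ≤ 1 / 4 := by linarith
    calc (4 * (β ^ δ') ^ (r + 1 + γ)) ^ k ≤ (1 / 4) ^ k := pow_le_pow_left₀ (by positivity) h2 k
      _ ≤ (1 / 4) ^ 1 := pow_le_pow_of_le_one (by norm_num) (by norm_num) hk
      _ = 1 / 4 := pow_one _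
  have b2 : ((univ.filter fun e : Fin k → Fin (r + 1 + γ) → Fin k =>
        ¬ Expg e γ ⌊δ' * k⌋₊).card : ℝ) ≤ (k : ℝ) ^ ((r + 1 + γ) * k) * (1 / 3) := by
    rcases Nat.eq_zero_or_pos γ with h0 | hpos
    · have h1 : (univ.filter fun e : Fin k → Fin (r + 1 + γ) → Fin k =>
        ¬ Expg e γ ⌊δ' * k⌋₊) = ∅ := by
        rw [filter_eq_empty_iff]
        intro e _ h
        apply h
        intro H _
        have h2 : γ * H.card = 0 := by simp [h0]
        rw [h2]
        exact Nat.zero_le _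
      rw [h1, card_empty, Nat.cast_zero]
      positivity
    · refine (bad_two δ' γ hpos hδ'0 hγδ k r hk).trans ?_
      apply mul_le_mul_of_nonneg_left _ hP.le
      apply geom_third _ (by positivity)
      have h1 : (1 / 16 : ℝ) ^ r ≤ 1 / (4 * (γ * Real.exp (1 + γ) + 1)) :=
        (pow_le_pow_of_le_one (by norm_num) (by norm_num) (le_max_right r1 r2)).trans hr2.le
      calc (γ : ℝ) * Real.exp (1 + γ) * (1 / 16) ^ r
          ≤ γ * Real.exp (1 + γ) * (1 / (4 * (γ * Real.exp (1 + γ) + 1))) := by gcongr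
        _ ≤ 1 / 4 := by
          rw [mul_one_div, div_le_div_iff₀ (by positivity) (by norm_num)]
          nlinarith [Real.exp_pos (1 + (γ : ℝ))]
  have b3 : (k : ℝ) ^ ((r + 1 + γ) * k) * (4 * (β ^ δ') ^ (r + 1 + γ)) ^ k
      ≤ (k : ℝ) ^ ((r + 1 + γ) * k) * (1 / 4) := mul_le_mul_of_nonneg_left b1' hP.le
  linarith

end Pool.Agent.H34.QA
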