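import Pool.Agent.H75.QA.Targets

/-!
# QA, module PARX: the parameters

The structure follows module PAR of helper81.
-/

set_option autoImplicit false

namespace Pool.Agent.H34.QA

open Finset Filter Pool.Agent.H68.AC Pool.Agent.H75.QA

lemma pow_sub_one_le (u : ℝ) (k : ℕ) (hu : 0 ≤ u) (hku : k * u ≤ 1 / 2) :
    (1 + u) ^ k - 1 ≤ 2 * (k * u) := by
  have he : (1 + u) ^ k ≤ Real.exp (k * u) := by
    rw [Real.exp_nat_mul]
    exact pow_le_pow_left₀ (by linarith) (by linarith [Real.add_one_le_exp u]) k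
  have he2 : Real.exp (k * u) * (1 - k * u) ≤ 1 := by
    have h3 := Real.add_one_le_exp (-(k * u))
    calc Real.exp (k * u) * (1 - k * u)
        ≤ Real.exp (k * u) * Real.exp (-(k * u)) :=
          mul_le_mul_of_nonneg_left (by linarith) (Real.exp_pos _).le
      _ = 1 := by rw [← Real.exp_add]; simp
  have h0 : 0 ≤ (k : ℝ) * u := by positivity
  have h1 : Real.exp (k * u) ≤ 1 + 2 * (k * u) := by
    by_contra hc
    push Not at hc
    have h2 : (1 + 2 * (k * u)) * (1 - k * u) < Real.exp (k * u) * (1 - k * u) :=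
      mul_lt_mul_of_pos_right hc (by linarith)
    nlinarith
  linarith

/-- The numerical core. -/
theorem parx_core (d C : ℕ) (ε : ℝ) (hε : 0 < ε) (hε1 : ε ≤ 1) (n L k h b w : ℕ) (δ g : ℝ)
    (hb : b = 4 * C + 12) (hδ0 : 0 < δ) (hδ : δ ≤ ε / (16 * (2 * d + 1))) (hg : g = 2 ^ L)
    (hw : w = n ^ C + 8 * n)
    (hLC : C + 11 ≤ L) (hLε : 8 / ε ≤ L) (hgn : g ≤ n)
    (hng : (n : ℝ) < 2 * g) (hkC : C + 1 ≤ k) (hkn : k * (b * L) ≤ n) (hnk : n < (k + 1) * (b * L))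
    (hLn : ((b + 4 * C) * L : ℝ) + 4 * C + 11 ≤ ε * n / 2) (hh : h = ⌊δ * k⌋₊) (s : ℕ)
    (hs : (s : ℝ) ≤ 2 ^ ((1 - ε) * n)) :
    HNQ n C k (2 ^ (b * L)) s w ⌊(1 - ε / 4) * k⌋₊ h d (2 * d + 2) (1 / g ^ (b + 3))
      (1 / g ^ (b + 3) / (64 * w)) := by
  have hgC : 2 ^ C * 2048 ≤ g := by
    rw [hg]
    calc (2 : ℝ) ^ C * 2048 = 2 ^ (C + 11) := by rw [pow_add]; norm_num
      _ ≤ 2 ^ L := pow_le_pow_right₀ (by norm_num) hLC
  have h2C : (1 : ℝ) ≤ 2 ^ C := one_le_pow₀ (by norm_num)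
  have hg2048 : 2048 ≤ g := by nlinarith
  have hg0 : 0 < g := by linarith
  have hg1 : 1 ≤ g := by linarith
  have hn0 : (0 : ℝ) < n := by linarith
  have hn1 : (1 : ℝ) ≤ n := by linarith
  have hN : ((2 ^ (b * L) : ℕ) : ℝ) = g ^ b := by
    push_cast
    rw [hg, ← pow_mul, mul_comm]
  have hL1 : 11 ≤ L := by omega
  have hb12 : 12 ≤ b := by omega
  have hbL1 : 1 ≤ b * L := Nat.mul_pos (by omega) (by omega)
  have hkn' : k ≤ n := le_trans (Nat.le_mul_of_pos_right k hbL1) hkn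
  have hkn'R : (k : ℝ) ≤ n := by exact_mod_cast hkn'
  have hk0 : (0 : ℝ) < k := by
    have : 0 < k := by omega
    exact_mod_cast this
  have hkn2 : (k : ℝ) * (b * L) ≤ n := by exact_mod_cast hkn
  have hnk2 : (n : ℝ) < (k + 1) * (b * L) := by exact_mod_cast hnk
  set X : ℝ := (n : ℝ) ^ C with hX
  have hX1 : 1 ≤ X := one_le_pow₀ hn1
  have hX0 : 0 < X := by linarith
  have hXg : X ≤ 2 ^ C * g ^ C := by
    rw [← mul_pow]
    exact pow_le_pow_left₀ hn0.le hng.le C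
  have hwR : (w : ℝ) = X + 8 * n := by
    rw [hw]; push_cast; rfl
  have hw0 : 0 < (w : ℝ) := by rw [hwR]; positivity
  have hgCpos : 0 < g ^ C := by positivity
  have hgC1 : 1 ≤ g ^ C := one_le_pow₀ hg1
  -- size of w
  have hw64 : 64 * (w : ℝ) ≤ g ^ (C + 2) := by
    rw [hwR, pow_add]
    have e1 : 64 * X ≤ g ^ C * (g ^ 2 / 2) := by
      calc 64 * X ≤ 64 * (2 ^ C * g ^ C) := by linarith
        _ = g ^ C * (64 * 2 ^ C) := by ring
        _ ≤ g ^ C * (g ^ 2 / 2) := by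
          apply mul_le_mul_of_nonneg_left _ hgCpos.le
          nlinarith
    have e2 : 64 * (8 * (n : ℝ)) ≤ g ^ C * (g ^ 2 / 2) := by
      calc 64 * (8 * (n : ℝ)) ≤ 1 * (g ^ 2 / 2) := by nlinarith
        _ ≤ g ^ C * (g ^ 2 / 2) := by
          apply mul_le_mul_of_nonneg_right hgC1
          positivity
    linarith
  -- size of A
  set q : ℝ := 1 / g ^ (b + 3) / (64 * w) with hq
  have hq0 : 0 < q := by rw [hq]; positivity
  have hqi : 1 / q ≤ g ^ (2 * b) := by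
    have e1 : 1 / q = 64 * w * g ^ (b + 3) := by
      rw [hq]; field_simp
    rw [e1]
    calc 64 * w * g ^ (b + 3) ≤ g ^ (C + 2) * g ^ (b + 3) := by gcongr
      _ = g ^ (C + 2 + (b + 3)) := by rw [← pow_add]
      _ ≤ g ^ (2 * b) := pow_le_pow_right₀ hg1 (by omega)
  have hw2 : 2 * (w : ℝ) ≤ g ^ b := by
    calc 2 * (w : ℝ) ≤ 64 * w := by linarith
      _ ≤ g ^ (C + 2) := hw64
      _ ≤ g ^ b := pow_le_pow_right₀ hg1 (by omega)
  have hA : 2 * w / q ^ d ≤ (g ^ b) ^ (2 * d + 1) := by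
    have e1 : 2 * (w : ℝ) / q ^ d = 2 * w * (1 / q) ^ d := by
      rw [one_div, inv_pow]; rfl
    rw [e1]
    calc 2 * w * (1 / q) ^ d ≤ g ^ b * (g ^ (2 * b)) ^ d := by gcongr
      _ = (g ^ b) ^ (2 * d + 1) := by
        rw [← pow_mul, ← pow_mul, ← pow_add]
        congr 1
        ring
  have hA0 : 0 ≤ 2 * w / q ^ d := by positivity
  have hlog : ∀ m : ℕ, (g ^ b) ^ m = (2 : ℝ) ^ ((b * L : ℝ) * m) := by
    intro m
    rw [hg, ← pow_mul, ← pow_mul, ← Real.rpow_natCast]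
    congr 1
    push_cast
    ring
  have hX4 : 2048 * X ^ 4 ≤ (2 : ℝ) ^ ((4 * C * L : ℝ) + 4 * C + 11) := by
    have e1 : X ^ 4 ≤ (2 ^ C * g ^ C) ^ 4 := pow_le_pow_left₀ hX0.le hXg 4
    have e2 : (2 : ℝ) ^ ((4 * C * L : ℝ) + 4 * C + 11) = 2048 * (2 ^ C * g ^ C) ^ 4 := by
      rw [hg, show ((4 * C * L : ℝ) + 4 * C + 11) = ((11 + (C * 4 + (L * C) * 4) : ℕ) : ℝ) by
        push_cast; ring, Real.rpow_natCast, pow_add, pow_add, mul_pow, ← pow_mul, ← pow_mul, ← pow_mul]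
      norm_num
      ring
    rw [e2]
    linarith
  -- first term
  have hE1 : 2 ^ k * (s * ((2 * w / q ^ d) ^ (2 * h) /
      ((2 ^ (b * L) : ℕ) : ℝ) ^ (⌊(1 - ε / 4) * k⌋₊ + 1))) ≤ 1 / (2048 * X ^ 4) := by
    have hA2 : (2 * w / q ^ d) ^ (2 * h) ≤ (2 : ℝ) ^ ((b * L : ℝ) * k * (ε / 8)) := by
      calc (2 * w / q ^ d) ^ (2 * h) ≤ ((g ^ b) ^ (2 * d + 1)) ^ (2 * h) := by gcongr
        _ = (g ^ b) ^ ((2 * d + 1) * (2 * h)) := by rw [← pow_mul]
        _ = (2 : ℝ) ^ ((b * L : ℝ) * (((2 * d + 1) * (2 * h) : ℕ) : ℝ)) := hlog _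
        _ ≤ (2 : ℝ) ^ ((b * L : ℝ) * k * (ε / 8)) := by
          apply Real.rpow_le_rpow_of_exponent_le (by norm_num)
          push_cast
          have e1 : (h : ℝ) ≤ δ * k := by rw [hh]; exact Nat.floor_le (by positivity)
          have e2 : (2 * d + 1 : ℝ) * (2 * h) ≤ ε * k / 8 := by
            calc (2 * d + 1 : ℝ) * (2 * h) ≤ (2 * d + 1) * (2 * (ε / (16 * (2 * d + 1)) * k)) := by
                  have : (h : ℝ) ≤ ε / (16 * (2 * d + 1)) * k := e1.trans (by gcongr)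
                  gcongr
              _ = ε * k / 8 := by field_simp; norm_num
          calc (b * L : ℝ) * ((2 * d + 1) * (2 * h)) ≤ (b * L : ℝ) * (ε * k / 8) := by gcongr
            _ = _ := by ring
    have hB : (2 : ℝ) ^ k ≤ (2 : ℝ) ^ ((b * L : ℝ) * k * (ε / 8)) := by
      rw [← Real.rpow_natCast]
      apply Real.rpow_le_rpow_of_exponent_le (by norm_num)
      rw [div_le_iff₀ hε] at hLε
      have hbR : (1 : ℝ) ≤ b := by exact_mod_cast (by omega : 1 ≤ b)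
      have e1 : (8 : ℝ) ≤ b * L * ε := by
        calc (8 : ℝ) ≤ 1 * (L * ε) := by linarith
          _ ≤ b * (L * ε) := by gcongr
          _ = _ := by ring
      nlinarith
    have hD : (2 : ℝ) ^ ((b * L : ℝ) * k * (1 - ε / 4)) ≤
        ((2 ^ (b * L) : ℕ) : ℝ) ^ (⌊(1 - ε / 4) * k⌋₊ + 1) := by
      rw [hN, hlog]
      apply Real.rpow_le_rpow_of_exponent_le (by norm_num)
      have e1 : (1 - ε / 4) * k < ⌊(1 - ε / 4) * k⌋₊ + 1 := Nat.lt_floor_add_one _
      push_cast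
      calc (b * L : ℝ) * k * (1 - ε / 4) = b * L * ((1 - ε / 4) * k) := by ring
        _ ≤ b * L * (⌊(1 - ε / 4) * k⌋₊ + 1) := mul_le_mul_of_nonneg_left e1.le (by positivity)
    calc 2 ^ k * (s * ((2 * w / q ^ d) ^ (2 * h) /
          ((2 ^ (b * L) : ℕ) : ℝ) ^ (⌊(1 - ε / 4) * k⌋₊ + 1)))
        ≤ (2 : ℝ) ^ ((b * L : ℝ) * k * (ε / 8)) * ((2 : ℝ) ^ ((1 - ε) * n) *
          ((2 : ℝ) ^ ((b * L : ℝ) * k * (ε / 8)) / (2 : ℝ) ^ ((b * L : ℝ) * k * (1 - ε / 4)))) := by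
          gcongr
      _ = (2 : ℝ) ^ ((b * L : ℝ) * k * (ε / 8) + (1 - ε) * n + (b * L : ℝ) * k * (ε / 8)
            - (b * L : ℝ) * k * (1 - ε / 4)) := by
          rw [Real.rpow_sub (by norm_num), Real.rpow_add (by norm_num), Real.rpow_add (by norm_num)]
          ring
      _ ≤ (2 : ℝ) ^ (-((4 * C * L : ℝ) + 4 * C + 11)) := by
          apply Real.rpow_le_rpow_of_exponent_le (by norm_num)
          have e1 : (b * L : ℝ) * k ≥ n - b * L := by linarith
          have e2 : (1 - ε / 2) * ((b * L : ℝ) * k) ≥ (1 - ε / 2) * (n - b * L) :=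
            mul_le_mul_of_nonneg_left e1 (by linarith)
          have e3 : 0 ≤ (b * L : ℝ) * ε := by positivity
          nlinarith
      _ ≤ 1 / (2048 * X ^ 4) := by
          rw [Real.rpow_neg (by norm_num), ← one_div]
          exact one_div_le_one_div_of_le (by positivity) hX4
  -- second term
  have hE2 : (1 + 2 * w / (q ^ d * ((2 ^ (b * L) : ℕ) : ℝ) ^ (2 * d + 2))) ^ k - 1
      ≤ 1 / (2048 * X ^ 4) := by
    rw [hN]
    set u : ℝ := 2 * w / (q ^ d * (g ^ b) ^ (2 * d + 2)) with hu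
    have hu0 : 0 ≤ u := by rw [hu]; positivity
    have hu1 : u ≤ 1 / g ^ b := by
      have e1 : u = (2 * w / q ^ d) / (g ^ b) ^ (2 * d + 2) := by
        rw [hu]; field_simp
      rw [e1, div_le_div_iff₀ (by positivity) (by positivity), one_mul]
      calc 2 * w / q ^ d * g ^ b ≤ (g ^ b) ^ (2 * d + 1) * g ^ b := by gcongr
        _ = (g ^ b) ^ (2 * d + 2) := by rw [← pow_succ]
    have e0 : 8192 * g * X ^ 4 ≤ g ^ b := by
      have e1 : X ^ 4 ≤ (2 ^ C * g ^ C) ^ 4 := pow_le_pow_left₀ hX0.le hXg 4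
      have e2 : 8192 * (2 ^ C) ^ 4 ≤ g ^ 4 := by
        calc (8192 : ℝ) * (2 ^ C) ^ 4 ≤ (2 ^ C * 2048) ^ 4 := by
              rw [mul_pow]
              have : (0 : ℝ) < (2 ^ C) ^ 4 := by positivity
              nlinarith
          _ ≤ g ^ 4 := pow_le_pow_left₀ (by positivity) hgC 4
      calc 8192 * g * X ^ 4 ≤ 8192 * g * (2 ^ C * g ^ C) ^ 4 := by gcongr
        _ = (8192 * (2 ^ C) ^ 4) * (g * (g ^ C) ^ 4) := by ring
        _ ≤ g ^ 4 * (g * (g ^ C) ^ 4) := by gcongr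
        _ = g ^ (4 * C + 5) := by ring
        _ ≤ g ^ b := pow_le_pow_right₀ hg1 (by omega)
    have hgb : 0 < g ^ b := by positivity
    have hku : k * u ≤ 1 / (4096 * X ^ 4) := by
      calc k * u ≤ (2 * g) * (1 / g ^ b) := by
            have : (k : ℝ) ≤ 2 * g := by linarith
            gcongr
        _ = 2 * g / g ^ b := by ring
        _ ≤ 1 / (4096 * X ^ 4) := by
          rw [div_le_div_iff₀ hgb (by positivity)]
          linarith
    have hX41 : 1 ≤ X ^ 4 := one_le_pow₀ hX1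
    have hku2 : k * u ≤ 1 / 2 := hku.trans (by
      apply one_div_le_one_div_of_le (by norm_num)
      linarith)
    refine (pow_sub_one_le u k hu0 hku2).trans ?_
    calc 2 * (k * u) ≤ 2 * (1 / (4096 * X ^ 4)) := by linarith
      _ = 1 / (2048 * X ^ 4) := by field_simp; norm_num
  -- deep trees
  have hE3 : (2 : ℝ) ^ (n ^ C) * deepErr k s w ≤ 1 / (256 * X ^ 4) := by
    have hs2 : (s : ℝ) ≤ 2 ^ n := by
      refine hs.trans ?_
      rw [← Real.rpow_natCast]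
      apply Real.rpow_le_rpow_of_exponent_le (by norm_num)
      nlinarith
    have e1 : (2 : ℝ) ^ k ≤ 2 ^ n := pow_le_pow_right₀ (by norm_num) hkn'
    have e2 : (16 : ℝ) ^ k ≤ 16 ^ n := pow_le_pow_right₀ (by norm_num) hkn'
    have e5 : 256 * X ^ 4 ≤ (2 : ℝ) ^ (2 * n) := by
      calc 256 * X ^ 4 ≤ 2048 * X ^ 4 := by nlinarith [pow_pos hX0 4]
        _ ≤ (2 : ℝ) ^ ((4 * C * L : ℝ) + 4 * C + 11) := hX4
        _ ≤ (2 : ℝ) ^ (((2 * n : ℕ) : ℝ)) := by
          apply Real.rpow_le_rpow_of_exponent_le (by norm_num)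
          push_cast
          have : 0 ≤ (b : ℝ) * L := by positivity
          nlinarith
        _ = _ := Real.rpow_natCast _ _
    unfold deepErr
    calc (2 : ℝ) ^ (n ^ C) * (2 ^ k * (s * (3 / 2 * 16 ^ k / 2 ^ (w + 1))))
        ≤ (2 : ℝ) ^ (n ^ C) * (2 ^ n * (2 ^ n * (3 / 2 * 16 ^ n / 2 ^ (w + 1)))) := by gcongr
      _ = 3 / 4 * (1 / 2 ^ (2 * n)) := by
          have e3 : (16 : ℝ) ^ n = 2 ^ (4 * n) := by rw [pow_mul]; norm_num
          have e4 : (2 : ℝ) ^ (w + 1) = 2 * 2 ^ (n ^ C) * (2 ^ n * 2 ^ n * 2 ^ (4 * n) * 2 ^ (2 * n)) := by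
            rw [hw]
            ring
          rw [e3, e4]
          field_simp
          norm_num
      _ ≤ 1 * (1 / (256 * X ^ 4)) := by
          have := one_div_le_one_div_of_le (by positivity) e5
          have h0 : (0 : ℝ) ≤ 1 / 2 ^ (2 * n) := by positivity
          linarith
      _ = _ := one_mul _
  -- conclusion
  unfold HNQ eta
  have hE : 8 * (2 ^ k * (s * ((2 * w / q ^ d) ^ (2 * h) /
      ((2 ^ (b * L) : ℕ) : ℝ) ^ (⌊(1 - ε / 4) * k⌋₊ + 1))) +
      ((1 + 2 * w / (q ^ d * ((2 ^ (b * L) : ℕ) : ℝ) ^ (2 * d + 2))) ^ k - 1)) +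
      2 ^ (n ^ C) * deepErr k s w ≤ (1 / (8 * X ^ 2)) ^ 2 := by
    have e1 : (1 / (8 * X ^ 2)) ^ 2 = 4 * (1 / (256 * X ^ 4)) := by field_simp; norm_num
    have e2 : 8 * (1 / (2048 * X ^ 4)) = 1 / (256 * X ^ 4) := by field_simp; norm_num
    have e3 : 0 ≤ 1 / (256 * X ^ 4) := by positivity
    rw [e1]
    linarith
  have hsq := Real.sqrt_le_sqrt hE
  rw [Real.sqrt_sq (by positivity)] at hsq
  have hNp : (((2 ^ (b * L) : ℕ) : ℝ) * (1 / g ^ (b + 3))) ^ k ≤ 1 / (2 * X) := by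
    have e1 : ((2 ^ (b * L) : ℕ) : ℝ) * (1 / g ^ (b + 3)) = 1 / g ^ 3 := by
      rw [hN, pow_add]; field_simp
    rw [e1, one_div, inv_pow, ← one_div]
    apply one_div_le_one_div_of_le (by positivity)
    calc 2 * X ≤ 2 * (2 ^ C * g ^ C) := by linarith
      _ ≤ g * (g ^ C * g ^ C) := by
          have e2 : (2 : ℝ) ^ C ≤ g ^ C := pow_le_pow_left₀ (by norm_num) (by linarith) C
          have e3 : (2 : ℝ) ≤ g := by linarith
          gcongr
      _ = g ^ (2 * C + 1) := by ring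
      _ ≤ (g ^ 3) ^ k := by
          rw [← pow_mul]
          exact pow_le_pow_right₀ hg1 (by omega)
  have hfin : 4 * X * (1 / (8 * X ^ 2)) = 1 / (2 * X) := by field_simp; norm_num
  have h1X : 1 / X = 1 / (2 * X) + 1 / (2 * X) := by field_simp; norm_num
  calc (((2 ^ (b * L) : ℕ) : ℝ) * (1 / g ^ (b + 3))) ^ k + 4 * X * √(8 * (2 ^ k * (s *
        ((2 * w / q ^ d) ^ (2 * h) / ((2 ^ (b * L) : ℕ) : ℝ) ^ (⌊(1 - ε / 4) * k⌋₊ + 1))) +
      ((1 + 2 * w / (q ^ d * ((2 ^ (b * L) : ℕ) : ℝ) ^ (2 * d + 2))) ^ k - 1)) +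
      2 ^ (n ^ C) * deepErr k s w)
      ≤ 1 / (2 * X) + 4 * X * (1 / (8 * X ^ 2)) := by gcongr
    _ = 1 / X := by rw [hfin, h1X]

/-- PARX: the parameters. -/
theorem PARX : T_PARX := by
  intro d C ε hε hε1
  refine ⟨1 - ε / 4, ε / (16 * (2 * d + 1)), 2 * d + 2, by linarith, by linarith, by positivity, ?_⟩
  intro δ r hδ0 hδ
  set b : ℕ := 4 * C + 12 with hb
  refine ⟨b * (r + 1) + b + 1, ?_⟩
  -- eventually, log is small
  have hlog : ∀ c : ℝ, 0 < c → ∀ᶠ n : ℕ in atTop, (Nat.log 2 n : ℝ) ≤ c * n := by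
    intro c hc
    have h1 := (Real.isLittleO_log_id_atTop.comp_tendsto tendsto_natCast_atTop_atTop).bound
      (show (0 : ℝ) < c * Real.log 2 by positivity)
    filter_upwards [h1, eventually_ge_atTop 1] with n hn hn1
    simp only [Function.comp, id, Real.norm_eq_abs] at hn
    have h2 : (2 : ℝ) ^ Nat.log 2 n ≤ n := by exact_mod_cast Nat.pow_log_le_self 2 (by omega)
    have h3 : (Nat.log 2 n : ℝ) * Real.log 2 ≤ Real.log n := by
      rw [← Real.log_pow]
      exact Real.log_le_log (by positivity) h2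
    have h4 : Real.log n ≤ c * Real.log 2 * n := by
      have := (le_abs_self _).trans hn
      rwa [abs_of_nonneg (Nat.cast_nonneg n)] at this
    have hl2 : 0 < Real.log 2 := Real.log_pos (by norm_num)
    by_contra hc2
    push Not at hc2
    nlinarith
  obtain ⟨M, hM⟩ := exists_nat_ge (8 / ε)
  have hbR : (0 : ℝ) < b := by
    have : 0 < b := by omega
    exact_mod_cast this
  have hE3 : ∀ᶠ n : ℕ in atTop, 4 * (4 * C + 11) / ε ≤ (n : ℝ) :=
    tendsto_natCast_atTop_atTop.eventually_ge_atTop _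
  filter_upwards [hlog (1 / (b * (1 + 1 / δ + (C + 1)))) (by positivity),
    hlog (ε / (4 * (b + 4 * C))) (by positivity), hE3,
    eventually_ge_atTop (2 ^ (max (C + 11) M))] with n hn1 hn2 hn3 hn4
  set L := Nat.log 2 n with hL
  have hn0 : n ≠ 0 := by
    have : 0 < 2 ^ (max (C + 11) M) := by positivity
    omega
  have hLM : max (C + 11) M ≤ L := by
    rw [hL]
    exact Nat.le_log_of_pow_le (by norm_num) hn4
  have hLC : C + 11 ≤ L := (le_max_left _ _).trans hLM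
  have hML : M ≤ L := (le_max_right _ _).trans hLM
  have hgn : 2 ^ L ≤ n := Nat.pow_log_le_self 2 hn0
  have hng : n < 2 ^ (L + 1) := Nat.lt_pow_succ_log_self (by norm_num) n
  have hgnR : (2 : ℝ) ^ L ≤ n := by exact_mod_cast hgn
  have hngR : (n : ℝ) < 2 * 2 ^ L := by
    have : (n : ℝ) < 2 ^ (L + 1) := by exact_mod_cast hng
    rw [pow_succ] at this; linarith
  have hnR : (0 : ℝ) < n := by exact_mod_cast Nat.pos_of_ne_zero hn0
  set k := n / (b * L) with hk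
  have hbL : 0 < b * L := Nat.mul_pos (by omega) (by omega)
  have hkn : k * (b * L) ≤ n := Nat.div_mul_le_self n (b * L)
  have hnk : n < (k + 1) * (b * L) := by
    have := Nat.lt_div_mul_add (a := n) hbL
    rw [add_mul, one_mul]; exact this
  have hnkR : (n : ℝ) < (k + 1) * (b * L) := by exact_mod_cast hnk
  have hbLR : (0 : ℝ) < b * L := by exact_mod_cast hbL
  have hkbig : 1 / δ + (C + 1) < k := by
    have e1 : (b * L : ℝ) * (1 + 1 / δ + (C + 1)) ≤ n := by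
      have e0 : 0 < b * (1 + 1 / δ + (C + 1)) := by positivity
      have := mul_le_mul_of_nonneg_right hn1 e0.le
      have e2 : 1 / (b * (1 + 1 / δ + (C + 1))) * n * (b * (1 + 1 / δ + (C + 1))) = n := by
        field_simp
      rw [e2] at this
      linarith
    have e2 : (b * L : ℝ) * (1 + 1 / δ + (C + 1)) < (b * L) * (k + 1) := by linarith
    have e3 := lt_of_mul_lt_mul_left e2 hbLR.le
    linarith
  have hδi : 0 < 1 / δ := by positivity
  have hCR : (0 : ℝ) ≤ C := Nat.cast_nonneg C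
  have hkC : C + 1 ≤ k := by
    have : ((C + 1 : ℕ) : ℝ) ≤ k := by push_cast; linarith
    exact_mod_cast this
  have hδk : 1 ≤ δ * k := by
    have e4 : 1 / δ < k := by linarith
    rw [div_lt_iff₀ hδ0] at e4
    linarith
  have hk1 : 1 ≤ k := by omega
  have hg2 : (2 : ℝ) ≤ 2 ^ L := by
    calc (2 : ℝ) = 2 ^ 1 := by norm_num
      _ ≤ 2 ^ L := pow_le_pow_right₀ (by norm_num) (by omega)
  have hg9 : (2 : ℝ) ≤ (2 ^ L) ^ (b + 3) := by
    calc (2 : ℝ) ≤ (2 ^ L) ^ 1 := by rw [pow_one]; exact hg2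
      _ ≤ (2 ^ L) ^ (b + 3) := pow_le_pow_right₀ (by linarith) (by omega)
  have hp2 : 1 / ((2 : ℝ) ^ L) ^ (b + 3) ≤ 1 / 2 := one_div_le_one_div_of_le (by norm_num) hg9
  set w : ℕ := n ^ C + 8 * n with hw
  have hw1 : 1 ≤ w := by
    have : 0 < n := Nat.pos_of_ne_zero hn0
    omega
  have hw1R : (1 : ℝ) ≤ w := by exact_mod_cast hw1
  refine ⟨k, b * L, w, 1 / (2 ^ L) ^ (b + 3), 1 / (2 ^ L) ^ (b + 3) / (64 * w), hk1, hbL, hkn,
    ?_, ?_, ?_, hw1, by positivity, hp2, by positivity, ?_, ?_, ?_⟩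
  · calc k * (2 ^ (b * L)) ^ (r + 1) ≤ n * (n ^ b) ^ (r + 1) := by
          apply Nat.mul_le_mul
          · exact Nat.div_le_self _ _
          · apply Nat.pow_le_pow_left
            rw [mul_comm, pow_mul]
            exact Nat.pow_le_pow_left hgn b
      _ = n ^ (b * (r + 1) + 1) := by ring
      _ ≤ n ^ (b * (r + 1) + b + 1) := Nat.pow_le_pow_right (by omega) (by omega)
  · have : (b * (r + 1) + b + 1) * L = (r + 1) * (b * L) + (b * L + L) := by ring
    rw [this]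
    omega
  · exact Nat.le_floor (by exact_mod_cast hδk)
  · have : 1 / ((2 : ℝ) ^ L) ^ (b + 3) / (64 * w) ≤ 1 / ((2 : ℝ) ^ L) ^ (b + 3) :=
      div_le_self (by positivity) (by linarith)
    linarith
  · apply le_of_eq
    field_simp
  · intro s hs
    refine parx_core d C ε hε hε1 n L k ⌊δ * k⌋₊ b w δ (2 ^ L) hb hδ0 hδ rfl hw hLC ?_ hgnR hngR
      hkC hkn hnk ?_ rfl s hs
    · exact hM.trans (by exact_mod_cast hML)
    · rw [div_le_iff₀ hε] at hn3
      have e1 : (b + 4 * C : ℝ) * L ≤ ε * n / 4 := by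
        have e0 : (0 : ℝ) < b + 4 * C := by positivity
        calc (b + 4 * C : ℝ) * L ≤ (b + 4 * C) * (ε / (4 * (b + 4 * C)) * n) := by gcongr
          _ = ε * n / 4 := by field_simp
      linarith

end Pool.Agent.H34.QA
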