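import Pool.Agent.H75.QA.Targets
import Pool.Agent.H90.AC.U
import Pool.Agent.H68.AC.BCx

/-!
# QA, module NULLU: random inputs are usually unsatisfiable
-/

set_option autoImplicit false

namespace Pool.Agent.H34.QA

open Finset Pool.Agent.H68.AC Pool.Agent.H75.QA

theorem NULLU : T_NULLU := by
  intro k r A _ _ e p hp hp1
  classical
  have h1 : ∀ x : Fin k → A, ∑ y : VV k r A → Bool, wz p y * ind (∀ j, y (pos e x j) = true)
      = p ^ k := by
    intro x
    have h2 := Pool.Agent.H90.AC.sum_ind_true p (K e x univ)
    rw [K_card, card_univ, Fintype.card_fin] at h2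
    rw [← h2]
    refine sum_congr rfl fun y _ => ?_
    have h3 : (∀ j, y (pos e x j) = true) ↔ ∀ v ∈ K e x univ, y v = true := by
      constructor
      · intro h v hv
        obtain ⟨j, _, rfl⟩ := mem_image.1 hv
        exact h j
      · intro h j
        exact h _ (mem_image_of_mem _ (mem_univ j))
    rw [propext h3]
  calc ∑ y : VV k r A → Bool, wz p y * ind (fE e y)
      ≤ ∑ y : VV k r A → Bool, wz p y * ∑ x : Fin k → A, ind (∀ j, y (pos e x j) = true) :=
        sum_le_sum fun y _ => mul_le_mul_of_nonneg_left (ind_exists_le _)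
          (Pool.Agent.H90.AC.wz_nonneg hp hp1 y)
    _ = ∑ x : Fin k → A, ∑ y : VV k r A → Bool, wz p y * ind (∀ j, y (pos e x j) = true) := by
        rw [sum_comm]
        exact sum_congr rfl fun y _ => mul_sum _ _ _
    _ = (Fintype.card A * p) ^ k := by
        rw [sum_congr rfl fun x _ => h1 x, sum_const, card_univ, Fintype.card_fun,
          Fintype.card_fin, nsmul_eq_mul, mul_pow]
        push_cast
        ring

end Pool.Agent.H34.QA
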